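import Pool.Agent.V1127.PhMain

set_option autoImplicit false

/-!
The free group of rank two has property (PH') from two focal actions, so property (PH) from focal
and lineal actions does not imply amenability.
-/

namespace Pool.Agent.Results.MP_d5cca6_al.FreeGroupFocal

open Pool.Agent.V1127.Ph

theorem result :
    -- the answer to the question, also for finitely generated groups
    (¬ ∀ (G : Type) [Group G], Group.FG G → PHFocalLineal G → Amenable G) ∧
    -- the example is the free group of rank two, with two focal actions
    PHFocalLineal (FreeGroup (Fin 2)) ∧ ¬ Amenable (FreeGroup (Fin 2)) ∧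
    ∃ A B : HypAct (FreeGroup (Fin 2)), A.Cobounded ∧ A.Focal ∧ B.Cobounded ∧ B.Focal ∧
      ∀ (p : A.X) (q : B.X) (R : ℝ),
        {g : FreeGroup (Fin 2) | dist p (g • p) + dist q (g • q) ≤ R}.Finite := by
  refine ⟨fun h => not_amenable (h (FreeGroup (Fin 2)) inferInstance ph_F2), ph_F2, not_amenable,
    acts 0, acts 1, (acts_ok 0).1, (acts_ok 0).2, (acts_ok 1).1, (acts_ok 1).2, ?_⟩
  intro p q R
  have h := acts_proper (Fin.cons p (Fin.cons q finZeroElim)) R
  apply h.subset
  intro g hg
  show ∑ i, _ ≤ R
  rw [Fin.sum_univ_two]
  exact hg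

end Pool.Agent.Results.MP_d5cca6_al.FreeGroupFocal
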